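import Mathlib

namespace Pool.Agent.Results.MP_ba12ad_co.Counter

/-- No loop, no digon, no directed triangle. -/
def C3Free {V : Type} (A : V → V → Prop) : Prop :=
  (∀ u, ¬ A u u) ∧ (∀ u v, A u v → ¬ A v u) ∧ ∀ u v w, A u v → A v w → ¬ A w u

/-- Adding any missing arc creates a directed cycle of length at most three. -/
def MaximalC3Free {V : Type} (A : V → V → Prop) : Prop :=
  C3Free A ∧ ∀ u v, u ≠ v → ¬ A u v → ¬ C3Free fun x y => A x y ∨ (x = u ∧ y = v)

/-- Homogeneous set. -/
def Homogeneous {V : Type} [Fintype V] (A : V → V → Prop) (X : Finset V) : Prop :=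
  2 ≤ X.card ∧ X.card < Fintype.card V ∧
    ∀ w ∉ X, (∀ x ∈ X, A w x) ∨ (∀ x ∈ X, A x w) ∨ ∀ x ∈ X, ¬ A w x ∧ ¬ A x w

/-- The circular interval digraph on `ZMod (3k+1)`. -/
def circ (k : ℕ) (x y : ZMod (3 * k + 1)) : Prop := ∃ j : ℕ, 1 ≤ j ∧ j ≤ k ∧ y = x + j

def g (x y : Fin 11) : Bool := y == x + 1 || y == x + 2 || y == x + 4

def hom (f : Fin 11 → Bool) : Bool :=
  (List.finRange 11).all fun w => f w ||
    ((List.finRange 11).all fun x => !f x || g w x) ||
    ((List.finRange 11).all fun x => !f x || g x w) ||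
    ((List.finRange 11).all fun x => !f x || (!g w x && !g x w))

def small (f : Fin 11 → Bool) : Bool :=
  ((List.finRange 11).all fun x => f x) ||
    (List.finRange 11).all fun x => (List.finRange 11).all fun y => !f x || !f y || x == y

lemma key : ∀ a b c d e f h i j k l : Bool,
    (!hom ![a, b, c, d, e, f, h, i, j, k, l] || small ![a, b, c, d, e, f, h, i, j, k, l]) = true := by
  decide +kernel

lemma key' (f : Fin 11 → Bool) (h : hom f = true) : small f = true := by
  have e : f = ![f 0, f 1, f 2, f 3, f 4, f 5, f 6, f 7, f 8, f 9, f 10] := by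
    funext i; fin_cases i <;> rfl
  have := key (f 0) (f 1) (f 2) (f 3) (f 4) (f 5) (f 6) (f 7) (f 8) (f 9) (f 10)
  rw [← e, h] at this
  simpa using this

lemma mx : ∀ u v : Fin 11, u ≠ v → g u v ≠ true → g v u = true ∨ ∃ w, g v w = true ∧ g w u = true := by
  decide +kernel

theorem result : ∃ (n : ℕ) (A : Fin n → Fin n → Prop), MaximalC3Free A ∧
    (∀ X, ¬ Homogeneous A X) ∧ (∀ v, 4 * n < 15 * {w | A v w}.ncard) ∧
    (∀ v, 4 * n < 15 * {w | A w v}.ncard) ∧ ¬ ∃ k, 1 ≤ k ∧ Nonempty (A ≃r circ k) := by
  refine ⟨11, fun x y => g x y = true, ⟨?_, ?_⟩, ?_, ?_, ?_, ?_⟩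
  · unfold C3Free; decide +kernel
  · intro u v huv hA h
    rcases mx u v huv hA with h1 | ⟨w, h1, h2⟩
    · exact h.2.1 u v (Or.inr ⟨rfl, rfl⟩) (Or.inl h1)
    · exact h.2.2 u v w (Or.inr ⟨rfl, rfl⟩) (Or.inl h1) (Or.inl h2)
  · rintro X ⟨h2, hlt, h⟩
    have hs := key' (fun x => decide (x ∈ X)) (by
      simp only [hom, List.all_eq_true, List.mem_finRange, forall_const, Bool.or_eq_true,
        decide_eq_true_eq, Bool.not_eq_true', decide_eq_false_iff_not, Bool.and_eq_true]
      intro w
      by_cases hw : w ∈ X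
      · exact Or.inl (Or.inl (Or.inl hw))
      rcases h w hw with h | h | h
      · exact Or.inl (Or.inl (Or.inr fun x => (em (x ∈ X)).symm.imp id (h x)))
      · exact Or.inl (Or.inr fun x => (em (x ∈ X)).symm.imp id (h x))
      · exact Or.inr fun x => (em (x ∈ X)).symm.imp id fun hx => by simpa using h x hx)
    simp only [small, List.all_eq_true, List.mem_finRange, forall_const, Bool.or_eq_true,
      decide_eq_true_eq, Bool.not_eq_true', decide_eq_false_iff_not, beq_iff_eq] at hs
    rcases hs with hs | hs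
    · rw [Finset.eq_univ_iff_forall.2 hs] at hlt
      simp at hlt
    · have : X.card ≤ 1 := Finset.card_le_one.2 fun x hx y hy => by
        rcases hs x y with (h | h) | h
        · exact absurd hx h
        · exact absurd hy h
        · exact h
      omega
  · intro v
    have : {w | g v w = true} = ↑(Finset.univ.filter fun w => g v w = true) := by ext; simp
    rw [this, Set.ncard_coe_finset]
    clear this; revert v; decide +kernel
  · intro v
    have : {w | g w v = true} = ↑(Finset.univ.filter fun w => g w v = true) := by ext; simp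
    rw [this, Set.ncard_coe_finset]
    clear this; revert v; decide +kernel
  · rintro ⟨k, -, ⟨e⟩⟩
    have := Fintype.card_congr e.toEquiv
    simp only [Fintype.card_fin, ZMod.card] at this
    omega

end Pool.Agent.Results.MP_ba12ad_co.Counter
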